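import Pool.Agent.H23.GB.Targets9
import Pool.Agent.H4.GB.ZB

/-!
Module B9 of the project on perfect spanning sets (MP_684e05_nt): a positive proportion of the
character sums vanish, radius at least 9 (adapted from the module ZB of helper4).
-/

set_option autoImplicit false

open Finset Polynomial
open scoped Classical

namespace Pool.Agent.H87.GB

open Pool.Agent.H23.GW Pool.Agent.H23.GA Pool.Agent.H23.GB Pool.Agent.H4.GB

lemma log_n32 {m A u : ℝ} (hm : 1 ≤ m) (hu : u ≠ 0) (hA : 0 < A) (h : |u| ≤ A / (m * √m)) :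
    Real.log |u| ≤ Real.log A - 3 / 2 * Real.log m := by
  have hm0 : 0 < m := by linarith
  have h1 : Real.log |u| ≤ Real.log (A / (m * √m)) := Real.log_le_log (abs_pos.2 hu) h
  rw [Real.log_div hA.ne' (mul_pos hm0 (Real.sqrt_pos.2 hm0)).ne',
    Real.log_mul hm0.ne' (Real.sqrt_pos.2 hm0).ne', Real.log_sqrt hm0.le] at h1
  linarith

lemma bd_e {K K₀ A m u1 u3 u5 : ℝ} (hK : 0 < K) (hm : 1 ≤ m)
    (h : |u1| ≤ K * (|u3| / m + |u5| / m ^ 2 + 1 / m ^ 2)) (h3 : |u3| ≤ A / √m)
    (h5 : |u5| ≤ K₀ * √m) : |u1| ≤ K * (A + K₀ + 1) / (m * √m) := by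
  have hm0 : 0 < m := by linarith
  obtain ⟨r, hr⟩ : ∃ r, r = √m := ⟨_, rfl⟩
  have hr1 : 1 ≤ r := by
    rw [hr]
    exact Real.one_le_sqrt.2 hm
  have hrm : m = r ^ 2 := by
    rw [hr, Real.sq_sqrt hm0.le]
  rw [← hr] at h3 h5 ⊢
  rw [hrm] at h
  rw [hrm]
  have hr0 : 0 < r := by linarith
  have e1 : |u3| / r ^ 2 ≤ A / (r ^ 2 * r) := by
    rw [le_div_iff₀ hr0] at h3
    rw [div_le_div_iff₀ (by positivity) (by positivity)]
    have := mul_le_mul_of_nonneg_right h3 (sq_nonneg r)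
    linarith
  have e2 : |u5| / (r ^ 2) ^ 2 ≤ K₀ / (r ^ 2 * r) := by
    rw [div_le_div_iff₀ (by positivity) (by positivity)]
    have := mul_le_mul_of_nonneg_right h5 (show 0 ≤ r ^ 3 by positivity)
    nlinarith
  have e3 : 1 / (r ^ 2) ^ 2 ≤ 1 / (r ^ 2 * r) := by
    rw [div_le_div_iff₀ (by positivity) (by positivity)]
    have : r ^ 3 * 1 ≤ r ^ 3 * r := mul_le_mul_of_nonneg_left hr1 (by positivity)
    nlinarith
  have e4 : K * (A + K₀ + 1) / (r ^ 2 * r) =
      K * (A / (r ^ 2 * r) + K₀ / (r ^ 2 * r) + 1 / (r ^ 2 * r)) := by ring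
  rw [e4]
  refine h.trans (mul_le_mul_of_nonneg_left ?_ hK.le)
  linarith

theorem b9 (hSR : T_SR) (hAA : T_AA) : T_B9 := by
  intro s q ν w P hs hν hDS hwP H
  obtain ⟨K₀, hK₀, hSR⟩ := hSR s (by omega)
  obtain ⟨K, m₁, hK, hD⟩ := hDS K₀ hK₀
  obtain ⟨c, hc, hAA1⟩ := hAA.1 s (by omega)
  obtain ⟨δ, hδ⟩ : ∃ δ, δ = w + P - 515 / 1000 := ⟨_, rfl⟩
  have hδ0 : 0 < δ := by linarith
  obtain ⟨m₂, hm₂⟩ := H (δ / 8) (by positivity)
  obtain ⟨C, hC⟩ : ∃ C, C = 2 + |Real.log K₀| + |Real.log (7 * K)| +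
    |Real.log (K * (K₀ + 4))| + |Real.log (K * (K * (K₀ + 4) + K₀ + 1))| := ⟨_, rfl⟩
  have hC0 : 0 < C := by rw [hC]; positivity
  have hCa : Real.log K₀ ≤ C := by
    have := le_abs_self (Real.log K₀)
    have := abs_nonneg (Real.log (7 * K))
    have := abs_nonneg (Real.log (K * (K₀ + 4)))
    have := abs_nonneg (Real.log (K * (K * (K₀ + 4) + K₀ + 1)))
    linarith
  have hCb : Real.log (7 * K) ≤ C := by
    have := abs_nonneg (Real.log K₀)
    have := le_abs_self (Real.log (7 * K))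
    have := abs_nonneg (Real.log (K * (K₀ + 4)))
    have := abs_nonneg (Real.log (K * (K * (K₀ + 4) + K₀ + 1)))
    linarith
  have hCc : Real.log (K * (K₀ + 4)) ≤ C := by
    have := abs_nonneg (Real.log K₀)
    have := abs_nonneg (Real.log (7 * K))
    have := le_abs_self (Real.log (K * (K₀ + 4)))
    have := abs_nonneg (Real.log (K * (K * (K₀ + 4) + K₀ + 1)))
    linarith
  have hCd : Real.log (K * (K * (K₀ + 4) + K₀ + 1)) ≤ C := by
    have := abs_nonneg (Real.log K₀)
    have := abs_nonneg (Real.log (7 * K))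
    have := abs_nonneg (Real.log (K * (K₀ + 4)))
    have := le_abs_self (Real.log (K * (K * (K₀ + 4) + K₀ + 1)))
    linarith
  have hC2 : 2 ≤ C := by
    have := abs_nonneg (Real.log K₀)
    have := abs_nonneg (Real.log (7 * K))
    have := abs_nonneg (Real.log (K * (K₀ + 4)))
    have := abs_nonneg (Real.log (K * (K * (K₀ + 4) + K₀ + 1)))
    linarith
  obtain ⟨m₃, hm₃⟩ := exists_nat_ge (max (max (12 / (δ * c)) (8 / δ)) (Real.exp (4 * C / δ)))
  refine ⟨max (max m₁ m₂) (max m₃ 3), fun m hm G _ _ T hT => ?_⟩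
  have hmm1 : m₁ ≤ m := le_trans (le_trans (le_max_left _ _) (le_max_left _ _)) hm
  have hmm2 : m₂ ≤ m := le_trans (le_trans (le_max_right _ _) (le_max_left _ _)) hm
  have hmm3 : m₃ ≤ m := le_trans (le_trans (le_max_left _ _) (le_max_right _ _)) hm
  have hmm4 : 3 ≤ m := le_trans (le_trans (le_max_right _ _) (le_max_right _ _)) hm
  have hmR3 : (m₃ : ℝ) ≤ m := by exact_mod_cast hmm3
  have hm1 : (3 : ℝ) ≤ m := by exact_mod_cast hmm4
  have hm1' : (1 : ℝ) ≤ m := by linarith
  have hm0 : (0 : ℝ) < m := by linarith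
  have hma : 12 / (δ * c) ≤ m :=
    (le_trans (le_trans (le_max_left _ _) (le_max_left _ _)) hm₃).trans hmR3
  have hmb : 8 / δ ≤ m := (le_trans (le_trans (le_max_right _ _) (le_max_left _ _)) hm₃).trans hmR3
  have hmc : Real.exp (4 * C / δ) ≤ m := (le_trans (le_max_right _ _) hm₃).trans hmR3
  obtain ⟨L, hL⟩ : ∃ L, L = Real.log m := ⟨_, rfl⟩
  have hLC : 4 * C / δ ≤ L := by
    rw [hL, Real.le_log_iff_exp_le hm0]
    exact hmc
  have hL0 : 0 < L := lt_of_lt_of_le (by positivity) hLC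
  obtain ⟨N, hN⟩ : ∃ N : ℝ, N = Fintype.card G := ⟨_, rfl⟩
  have hN5 : c * (m : ℝ) ^ 5 ≤ N := by
    rw [hN, hT.cardG]
    exact hAA1 m
  have hN0 : 0 < N := lt_of_lt_of_le (by positivity) hN5
  obtain ⟨h1, h2⟩ := hm₂ m hmm2 G T hT
  rw [← hN] at h1 h2 ⊢
  -- the square root bound
  have hv0 : v T 0 = 2 * (m : ℝ) + 1 := by
    rw [v_zero, hT.card]
    push_cast
    ring
  have hsr : ∀ χ : AddChar G ℂ, χ ≠ 0 → |v T χ| ≤ K₀ * √m :=
    hSR (AddChar G ℂ) (v T) m hm1' hv0 hT.char
  have htriv : ∀ χ : AddChar G ℂ, |v T χ| ≤ 3 * m := by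
    intro χ
    rw [← V_norm T hT.neg_mem]
    refine (V_le T χ).trans ?_
    rw [hT.card]
    push_cast
    linarith
  have hdi : ∀ χ : AddChar G ℂ, χ ≠ 0 → v T χ ^ 2 < ν * m →
      |v T χ| ≤ K * (|v T (3 • χ)| / m + |v T (5 • χ)| / (m : ℝ) ^ 2 + 1 / (m : ℝ) ^ 2) := by
    intro χ hχ hlt
    have h := (hD (m : ℝ) (by exact_mod_cast hmm1) (fun k => v T (k • χ))
      (by simpa using hsr χ hχ) (hsr _ (two_smul_ne hT.odd χ hχ)) (fun k _ _ => htriv _)
      (hT.char χ hχ)).2
    simpa using h (by simpa using hlt)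
  -- the sum of the logarithms
  have hpr := H27.GW.pr G T
  have hlog : 0 ≤ ∑ χ ∈ (univ : Finset (AddChar G ℂ)) with V T χ ≠ 0, Real.log ‖V T χ‖ := by
    rw [← Real.log_prod]
    · exact Real.log_nonneg hpr
    · intro χ hχ
      rw [Finset.mem_filter] at hχ
      exact norm_ne_zero_iff.2 hχ.2
  rw [Finset.sum_filter] at hlog
  -- pointwise bound
  have hpt : ∀ χ : AddChar G ℂ, (if V T χ ≠ 0 then Real.log ‖V T χ‖ else 0) ≤
      C + L * (3 / 2 * (if χ = 0 then 1 else 0) + (if χ ≠ 0 ∧ ν * m ≤ v T χ ^ 2 then 1 else 0)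
        - 1 / 2 - (if χ ≠ 0 ∧ v T χ ^ 2 < ν * m ∧ 3 • χ ≠ 0 ∧
          v T (3 • χ) ^ 2 < ν * m then 1 else 0) + 3 / 2 * (if 9 • χ = 0 then 1 else 0) +
          3 / 2 * (if 5 • χ = 0 then 1 else 0) + 3 / 2 * (if V T χ = 0 then 1 else 0)) := by
    intro χ
    by_cases hχ : χ = 0
    · subst hχ
      have hV0 : V T 0 ≠ 0 := by
        rw [V_zero, hT.card]
        exact_mod_cast Nat.succ_ne_zero (2 * m)
      rw [if_pos hV0, if_pos rfl, if_neg (by simp), if_neg (by simp), if_pos (by simp),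
        if_pos (by simp), if_neg hV0, V_zero, hT.card, Complex.norm_natCast]
      have e1 : Real.log ((2 * m + 1 : ℕ) : ℝ) ≤ Real.log (3 * m) :=
        Real.log_le_log (by positivity) (by push_cast; linarith)
      rw [Real.log_mul (by norm_num) hm0.ne', ← hL] at e1
      have e2 : Real.log 3 ≤ 2 := by
        have := Real.log_le_sub_one_of_pos (show (0 : ℝ) < 3 by norm_num)
        linarith
      linarith
    · by_cases hNZ : ν * m ≤ v T χ ^ 2
      · have i1 : (if χ ≠ 0 ∧ ν * m ≤ v T χ ^ 2 then (1 : ℝ) else 0) = 1 := if_pos ⟨hχ, hNZ⟩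
        have i2 : (if χ ≠ 0 ∧ v T χ ^ 2 < ν * m ∧ 3 • χ ≠ 0 ∧
            v T (3 • χ) ^ 2 < ν * m then (1 : ℝ) else 0) = 0 :=
          if_neg (fun h => absurd h.2.1 (not_lt.2 hNZ))
        have i3 : (if χ = 0 then (1 : ℝ) else 0) = 0 := if_neg hχ
        rw [i1, i2, i3]
        have e0 : 0 ≤ (if 9 • χ = 0 then (1 : ℝ) else 0) := by split_ifs <;> norm_num
        have e1 : 0 ≤ (if 5 • χ = 0 then (1 : ℝ) else 0) := by split_ifs <;> norm_num
        have e2 : 0 ≤ (if V T χ = 0 then (1 : ℝ) else 0) := by split_ifs <;> norm_num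
        have e3 : (if V T χ ≠ 0 then Real.log ‖V T χ‖ else 0) ≤ C + L * (1 / 2) := by
          split_ifs with hV
          · rw [V_norm T hT.neg_mem]
            have hv : v T χ ≠ 0 := by
              intro h
              apply hV
              rw [← norm_eq_zero, V_norm T hT.neg_mem, h, abs_zero]
            have := log_half hm1' hv hK₀ (hsr χ hχ)
            rw [← hL] at this
            linarith
          · positivity
        have := mul_nonneg hL0.le (add_nonneg (add_nonneg e0 e1) e2)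
        linarith
      · have i1 : (if χ ≠ 0 ∧ ν * m ≤ v T χ ^ 2 then (1 : ℝ) else 0) = 0 :=
          if_neg (fun h => hNZ h.2)
        have i3 : (if χ = 0 then (1 : ℝ) else 0) = 0 := if_neg hχ
        rw [i1, i3]
        rw [not_le] at hNZ
        have hbound := hdi χ hχ hNZ
        have e0 : 0 ≤ (if 9 • χ = 0 then (1 : ℝ) else 0) := by split_ifs <;> norm_num
        have e1 : 0 ≤ (if 5 • χ = 0 then (1 : ℝ) else 0) := by split_ifs <;> norm_num
        have e4 : (if χ ≠ 0 ∧ v T χ ^ 2 < ν * m ∧ 3 • χ ≠ 0 ∧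
          v T (3 • χ) ^ 2 < ν * m then (1 : ℝ) else 0) ≤ 1 := by split_ifs <;> norm_num
        have f4 := mul_le_mul_of_nonneg_left e4 hL0.le
        have f0 := mul_nonneg hL0.le e0
        have f1 := mul_nonneg hL0.le e1
        by_cases hV : V T χ = 0
        · have i4 : (if V T χ = 0 then (1 : ℝ) else 0) = 1 := if_pos hV
          have i5 : (if V T χ ≠ 0 then Real.log ‖V T χ‖ else 0) = 0 := if_neg (not_not.2 hV)
          rw [i4, i5]
          linarith
        · have i4 : (if V T χ = 0 then (1 : ℝ) else 0) = 0 := if_neg hV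
          have i5 : (if V T χ ≠ 0 then Real.log ‖V T χ‖ else 0) = Real.log |v T χ| := by
            rw [← V_norm T hT.neg_mem]
            exact if_pos hV
          rw [i4, i5]
          have hv : v T χ ≠ 0 := by
            intro h
            apply hV
            rw [← norm_eq_zero, V_norm T hT.neg_mem, h, abs_zero]
          have hb : |v T χ| ≤ 7 * K := bd_b hK hm1' hbound (htriv _) (htriv _)
          have hbl : Real.log |v T χ| ≤ C :=
            (Real.log_le_log (abs_pos.2 hv) hb).trans hCb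
          by_cases h9 : 9 • χ = 0
          · rw [if_pos h9]
            linarith
          · by_cases h5 : 5 • χ = 0
            · rw [if_pos h5]
              linarith
            · rw [if_neg h9, if_neg h5]
              have h3 : 3 • χ ≠ 0 := by
                intro h
                apply h9
                rw [show 9 = 3 * 3 from rfl, mul_smul, h]
                exact nsmul_zero 3
              by_cases hDD : v T (3 • χ) ^ 2 < ν * m
              · rw [if_pos ⟨hχ, hNZ, h3, hDD⟩]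
                have e5 := hdi (3 • χ) h3 hDD
                have h9' : 3 • 3 • χ ≠ 0 := by
                  rw [← mul_smul]
                  exact h9
                have e6 := bd_c hK hK₀ hm1' e5 (hsr _ h9') (htriv _)
                have e7 := bd_e hK hm1' hbound e6 (hsr _ h5)
                have e8 := log_n32 hm1' hv (by positivity) e7
                rw [← hL] at e8
                linarith
              · rw [if_neg (fun h => hDD h.2.2.2)]
                have e7 := bd_c hK hK₀ hm1' hbound (hsr _ h3) (htriv _)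
                have e8 := log_nhalf hm1' hv (by positivity) e7
                rw [← hL] at e8
                linarith
  have hsum := Finset.sum_le_sum fun χ (_ : χ ∈ (univ : Finset (AddChar G ℂ))) => hpt χ
  have hsum2 := hlog.trans hsum
  rw [Finset.sum_add_distrib, ← Finset.mul_sum, Finset.sum_add_distrib, Finset.sum_add_distrib,
    Finset.sum_add_distrib, Finset.sum_sub_distrib, Finset.sum_sub_distrib,
    Finset.sum_add_distrib, ← Finset.mul_sum, ← Finset.mul_sum, ← Finset.mul_sum,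
    ← Finset.mul_sum, Finset.sum_boole,
    Finset.sum_boole, Finset.sum_boole, Finset.sum_boole, Finset.sum_boole, Finset.sum_boole,
    Finset.sum_const, Finset.sum_const, Finset.card_univ, AddChar.card_eq, nsmul_eq_mul,
    nsmul_eq_mul, ← hN] at hsum2
  have hz : (#{χ : AddChar G ℂ | χ = 0} : ℝ) = 1 := by
    rw [Finset.filter_eq' univ (0 : AddChar G ℂ)]
    simp
  rw [hz] at hsum2
  -- the number of bad characters
  have hbad : ∀ k : ℕ, 1 ≤ k → k ≤ s → (#{χ : AddChar G ℂ | k • χ = 0} : ℝ) ≤ N / (2 * m) := by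
    intro k hk1 hks
    have h := torsion_count T k (hT.mul_inj k hk1 hks)
    rw [hT.card] at h
    have h' : (#{χ : AddChar G ℂ | k • χ = 0} : ℝ) * (2 * m + 1) ^ 2 ≤ N * (2 * m + 1) := by
      rw [hN]
      exact_mod_cast h
    rw [le_div_iff₀ (by positivity)]
    have h3 : (#{χ : AddChar G ℂ | k • χ = 0} : ℝ) * (2 * m + 1) ≤ N := by
      have : (0 : ℝ) < 2 * m + 1 := by positivity
      nlinarith
    have h4 : (0 : ℝ) ≤ #{χ : AddChar G ℂ | k • χ = 0} := by positivity
    nlinarith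
  have hb3 := hbad 9 (by norm_num) (by omega)
  have hb5 := hbad 5 (by norm_num) (by omega)
  have hb : N / (2 * m) + N / (2 * m) ≤ δ / 8 * N := by
    have e1 : N / (2 * m) + N / (2 * m) = 1 / m * N := by
      field_simp
      ring
    rw [e1]
    refine mul_le_mul_of_nonneg_right ?_ hN0.le
    rw [div_le_iff₀ hm0]
    rw [div_le_iff₀ hδ0] at hmb
    linarith
  have hcst : 3 / 2 ≤ δ / 8 * N := by
    have e1 : c * m ≤ c * (m : ℝ) ^ 5 := by
      refine mul_le_mul_of_nonneg_left ?_ hc.le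
      exact le_self_pow₀ hm1' (by norm_num)
    rw [div_le_iff₀ (by positivity)] at hma
    nlinarith
  have hCL : C * N ≤ L * (δ / 4 * N) := by
    rw [div_le_iff₀ hδ0] at hLC
    nlinarith
  have hfin : 0 ≤ L * (δ / 4 * N + (3 / 2 * 1 + #{χ : AddChar G ℂ | χ ≠ 0 ∧ ν * m ≤ v T χ ^ 2} -
      N * (1 / 2) - #{χ : AddChar G ℂ | χ ≠ 0 ∧ v T χ ^ 2 < ν * m ∧ 3 • χ ≠ 0 ∧
          v T (3 • χ) ^ 2 < ν * m} + 3 / 2 * #{χ : AddChar G ℂ | 9 • χ = 0} +
      3 / 2 * #{χ : AddChar G ℂ | 5 • χ = 0} + 3 / 2 * #{χ : AddChar G ℂ | V T χ = 0})) := by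
    rw [mul_add]
    linarith
  have hfin2 := nonneg_of_mul_nonneg_right hfin hL0
  rw [hδ] at *
  linarith

end Pool.Agent.H87.GB
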