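import Pool.Agent.H87.GB.Tile

/-!
Module T2 of the GB project (MP_684e05_nt): relations of weight at most `2 s` are formal relations.
-/

set_option autoImplicit false

open Finset
open scoped Classical

namespace Pool.Agent.H87.GB

open Pool.Agent.H23.GW Pool.Agent.H23.GA Pool.Agent.H23.GB
open Pool.Agent.H27.GW (vec sgn vec_some vec_none vec_norm vec_inj vec_values sgn_ne sgn_not)

lemma RW_param {W H : Type} [Fintype W] [AddCommGroup H] (φ : W → H) (hφ : Function.Injective φ)
    (T : Finset H) (hT : ∀ x, x ∈ T ↔ ∃ w, φ w = x) (a b : ℕ)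
    (P : (Fin a → W) × (Fin b → W) → Prop)
    (hP : ∀ q, P q ↔ ∑ i, φ (q.1 i) + 3 • ∑ j, φ (q.2 j) = 0) :
    RW T a b = #{q : (Fin a → W) × (Fin b → W) | P q} := by
  rw [RW]
  symm
  refine Finset.card_bij (fun q _ => (fun i => φ (q.1 i), fun j => φ (q.2 j))) ?_ ?_ ?_
  · intro q hq
    rw [Finset.mem_filter, hP] at hq
    rw [Finset.mem_filter, Finset.mem_product, Fintype.mem_piFinset, Fintype.mem_piFinset]
    exact ⟨⟨fun i => (hT _).2 ⟨_, rfl⟩, fun i => (hT _).2 ⟨_, rfl⟩⟩, hq.2⟩
  · intro q _ q' _ h
    rw [Prod.mk.injEq] at h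
    exact Prod.ext (funext fun i => hφ (congrFun h.1 i)) (funext fun i => hφ (congrFun h.2 i))
  · intro q hq
    rw [Finset.mem_filter, Finset.mem_product, Fintype.mem_piFinset, Fintype.mem_piFinset] at hq
    obtain ⟨⟨h1, h2⟩, h3⟩ := hq
    have h1' : ∀ i, ∃ w, φ w = q.1 i := fun i => (hT _).1 (h1 i)
    have h2' : ∀ i, ∃ w, φ w = q.2 i := fun i => (hT _).1 (h2 i)
    choose x hx using h1'
    choose z hz using h2'
    refine ⟨(x, z), ?_, Prod.ext (funext hx) (funext hz)⟩
    rw [Finset.mem_filter, hP]
    refine ⟨Finset.mem_univ _, ?_⟩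
    simpa only [hx, hz] using h3

/-- relations of weight at most `2 s` are formal relations -/
theorem t2 : T_T2 := by
  intro G _ _ A s hs hA
  have hinj := val_inj (by omega) hA
  refine ⟨fun a b hab => ?_, fun k hk hks x hx y hy hxy => ?_⟩
  · obtain ⟨e⟩ : Nonempty (A ≃ Fin #A) := ⟨A.equivFin⟩
    rw [RW_param (val A) hinj (tile A) (fun x => ?_) a b
      (fun q => evh A (∑ i, vec (q.1 i) + 3 • ∑ j, vec (q.2 j)) = 0) (fun q => ?_),
      RW_param (fun w : Ltr A => (fun i => vec w (e.symm i) : Fin #A → ℤ)) ?_ _ (fun c => ?_) a b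
      (fun q => evh A (∑ i, vec (q.1 i) + 3 • ∑ j, vec (q.2 j)) = 0) (fun q => ?_)]
    · intro w w' h
      apply vec_inj
      funext x
      have := congrFun h (e x)
      simpa only [Equiv.symm_apply_apply] using this
    · have h1 : c ∈ ball (Fin #A) 1 ↔ (fun x => c (e x)) ∈ ball A 1 := by
        rw [mem_ball', mem_ball', nrm, nrm]
        rw [Equiv.sum_comp e fun i => (c i).natAbs]
      rw [h1, ball_one, Finset.mem_image]
      refine exists_congr fun w => ?_
      constructor
      · rintro ⟨-, h⟩
        funext i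
        have := congrFun h (e.symm i)
        simpa only [Equiv.apply_symm_apply] using this
      · intro h
        refine ⟨Finset.mem_univ _, ?_⟩
        funext i
        have := congrFun h (e i)
        simpa only [Equiv.symm_apply_apply] using this
    · have h2 : ∑ i, (fun k => vec (q.1 i) (e.symm k) : Fin #A → ℤ) +
          3 • ∑ j, (fun k => vec (q.2 j) (e.symm k) : Fin #A → ℤ) =
          fun k => (∑ i, vec (q.1 i) + 3 • ∑ j, vec (q.2 j)) (e.symm k) := by
        funext k
        simp only [Pi.add_apply, Pi.smul_apply, Finset.sum_apply]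
      rw [h2]
      constructor
      · intro h
        have h3 : ∑ i, vec (q.1 i) + 3 • ∑ j, vec (q.2 j) = 0 := by
          refine ker hA ?_ h
          have h4 := nrm_add_le (∑ i, vec (q.1 i)) (3 • ∑ j, vec (q.2 j))
          have h5 := nrm_sum_vec q.1
          have h6 := nrm_sum_vec q.2
          rw [nrm_nsmul] at h4
          omega
        rw [h3]
        rfl
      · intro h
        have h3 : ∑ i, vec (q.1 i) + 3 • ∑ j, vec (q.2 j) = 0 := by
          funext x
          have := congrFun h (e x)
          simpa only [Equiv.symm_apply_apply, Pi.zero_apply] using this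
        rw [h3, map_zero]
    · rw [tile_eq, Finset.mem_image]
      simp only [Finset.mem_univ, true_and]
    · rw [map_add, map_nsmul, map_sum, map_sum]
      rfl
  · rw [tile_eq] at hx hy
    obtain ⟨w, -, rfl⟩ := Finset.mem_image.1 (Finset.mem_coe.1 hx)
    obtain ⟨w', -, rfl⟩ := Finset.mem_image.1 (Finset.mem_coe.1 hy)
    have h1 : evh A (k • (vec w - vec w')) = 0 := by
      rw [map_nsmul, map_sub, smul_sub, sub_eq_zero]
      exact hxy
    have h2 : k • (vec w - vec w') = 0 := by
      refine ker hA ?_ h1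
      rw [nrm_nsmul]
      have h3 := nrm_add_le (vec w) (-vec w')
      rw [← sub_eq_add_neg, nrm_neg] at h3
      have h4 := nrm_vec w
      have h5 := nrm_vec w'
      calc k * nrm (vec w - vec w') ≤ k * 2 := Nat.mul_le_mul_left k (by omega)
        _ ≤ 2 * s := by omega
    have h3 : vec w = vec w' := by
      funext i
      have h4 := congrFun h2 i
      rw [Pi.smul_apply, Pi.sub_apply, nsmul_eq_mul, Pi.zero_apply, mul_eq_zero] at h4
      rcases h4 with h4 | h4
      · have : k = 0 := by exact_mod_cast h4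
        omega
      · omega
    rw [vec_inj h3]

end Pool.Agent.H87.GB
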