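import Pool.Agent.H87.GB.Tile

/-!
Module T3 of the GB project (MP_684e05_nt): representations as sums of two and as differences of
sums of two.
-/

set_option autoImplicit false

open Finset
open scoped Classical

namespace Pool.Agent.H87.GB

open Pool.Agent.H23.GW Pool.Agent.H23.GA Pool.Agent.H23.GB
open Pool.Agent.H27.GW (vec sgn vec_some vec_none vec_norm vec_inj vec_values sgn_ne sgn_not)

section count

variable {ι : Type} [Fintype ι]

/-- number of words of length `k` with sum `c` -/
noncomputable def cnt (k : ℕ) (c : ι → ℤ) : ℕ :=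
  #{w : Fin k → Option (ι × Bool) | ∀ j, ∑ i, vec (w i) j = c j}

lemma cnt_one (c : ι → ℤ) : cnt 1 c ≤ 1 := by
  rw [cnt, Finset.card_le_one]
  intro w hw w' hw'
  rw [Finset.mem_filter] at hw hw'
  funext i
  rw [Fin.fin_one_eq_zero i]
  apply vec_inj
  funext j
  have h1 := hw.2 j
  have h2 := hw'.2 j
  rw [Fin.sum_univ_one] at h1 h2
  rw [h1, h2]

/-- fixing a letter -/
lemma card_fix (k : ℕ) (c : ι → ℤ) (p : Fin (k + 1)) (f : Option (ι × Bool)) :
    #{w : Fin (k + 1) → Option (ι × Bool) | w p = f ∧ ∀ j, ∑ i, vec (w i) j = c j} =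
      cnt k (c - vec f) := by
  rw [cnt]
  refine Finset.card_bij (fun w _ => fun i => w (p.succAbove i)) ?_ ?_ ?_
  · intro w hw
    rw [Finset.mem_filter] at hw ⊢
    refine ⟨Finset.mem_univ _, fun j => ?_⟩
    have h1 := hw.2.2 j
    rw [Fin.sum_univ_succAbove _ p, hw.2.1] at h1
    rw [Pi.sub_apply, ← h1]
    ring
  · intro w hw w' hw' h
    rw [Finset.mem_filter] at hw hw'
    funext i
    rcases Fin.eq_self_or_eq_succAbove p i with rfl | ⟨i', rfl⟩
    · rw [hw.2.1, hw'.2.1]
    · exact congrFun h i'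
  · intro w hw
    rw [Finset.mem_filter] at hw
    refine ⟨p.insertNth f w, ?_, ?_⟩
    · rw [Finset.mem_filter]
      refine ⟨Finset.mem_univ _, by rw [Fin.insertNth_apply_same], fun j => ?_⟩
      rw [Fin.sum_univ_succAbove _ p, Fin.insertNth_apply_same]
      simp only [Fin.insertNth_apply_succAbove]
      rw [hw.2 j, Pi.sub_apply]
      ring
    · funext i
      simp only [Fin.insertNth_apply_succAbove]

lemma cnt_succ (k : ℕ) (c : ι → ℤ) : cnt (k + 1) c = ∑ f, cnt k (c - vec f) := by
  rw [cnt, Finset.card_eq_sum_card_fiberwise (f := fun w => w 0) (t := Finset.univ)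
    (fun _ _ => Finset.mem_coe.2 (Finset.mem_univ _))]
  refine Finset.sum_congr rfl fun f _ => ?_
  rw [← card_fix k c 0 f, Finset.filter_filter]
  congr 1
  refine Finset.filter_congr fun w _ => ?_
  exact and_comm

lemma cnt_peel (k : ℕ) (c : ι → ℤ) (hc : c ≠ 0) : ∃ f, cnt (k + 1) c ≤ (k + 1) * cnt k (c - vec f) := by
  obtain ⟨a, ha⟩ : ∃ i, c i ≠ 0 := by
    by_contra h3
    push Not at h3
    exact hc (funext h3)
  refine ⟨some (a, decide (0 < c a)), ?_⟩
  calc cnt (k + 1) c ≤ #((Finset.univ : Finset (Fin (k + 1))).biUnion fun p =>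
        {w : Fin (k + 1) → Option (ι × Bool) | w p = some (a, decide (0 < c a)) ∧
          ∀ j, ∑ i, vec (w i) j = c j}) := by
        refine Finset.card_le_card fun w hw => ?_
        rw [Finset.mem_filter] at hw
        rw [Finset.mem_biUnion]
        by_contra hcon
        have h1 : ∀ p, w p ≠ some (a, decide (0 < c a)) := by
          intro p hp
          apply hcon
          refine ⟨p, Finset.mem_univ _, ?_⟩
          rw [Finset.mem_filter]
          exact ⟨Finset.mem_univ _, hp, hw.2⟩
        have h2 := hw.2 a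
        have h3 : ∀ p, vec (w p) a * sgn (decide (0 < c a)) ≤ 0 := by
          intro p
          rcases vec_values (w p) a (decide (0 < c a)) with h | h | h
          · exact absurd h.1 (h1 p)
          · rw [h.2]
            have := mul_self_nonneg (sgn (decide (0 < c a)))
            linarith
          · rw [h.2, zero_mul]
        have h4 : (∑ p, vec (w p) a) * sgn (decide (0 < c a)) ≤ 0 := by
          rw [Finset.sum_mul]
          exact Finset.sum_nonpos fun p _ => h3 p
        rw [h2] at h4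
        by_cases h5 : 0 < c a
        · rw [decide_eq_true h5] at h4
          simp only [sgn, if_true] at h4
          omega
        · rw [decide_eq_false h5] at h4
          simp only [sgn, Bool.false_eq_true, if_false] at h4
          omega
    _ ≤ ∑ p : Fin (k + 1), #{w : Fin (k + 1) → Option (ι × Bool) |
        w p = some (a, decide (0 < c a)) ∧ ∀ j, ∑ i, vec (w i) j = c j} := Finset.card_biUnion_le
    _ = (k + 1) * cnt k (c - vec (some (a, decide (0 < c a)))) := by
        simp only [card_fix]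
        rw [Finset.sum_const, Finset.card_univ, Fintype.card_fin, smul_eq_mul]

lemma cnt_two {c : ι → ℤ} (hc : c ≠ 0) : cnt 2 c ≤ 2 := by
  obtain ⟨f, hf⟩ := cnt_peel 1 c hc
  have := cnt_one (c - vec f)
  change cnt 2 c ≤ _ at hf
  omega

lemma card_letters : Fintype.card (Option (ι × Bool)) = 2 * Fintype.card ι + 1 := by
  rw [Fintype.card_option, Fintype.card_prod, Fintype.card_bool, mul_comm]

lemma cnt_two' (c : ι → ℤ) : cnt 2 c ≤ 2 * Fintype.card ι + 1 := by
  rw [cnt_succ, ← card_letters]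
  refine (Finset.sum_le_sum fun f _ => cnt_one (c - vec f)).trans ?_
  simp

lemma cnt_three (c : ι → ℤ) : cnt 3 c ≤ 6 * Fintype.card ι + 3 := by
  by_cases hc : c = 0
  · subst hc
    rw [cnt_succ, Fintype.sum_option]
    have h1 := cnt_two' ((0 : ι → ℤ) - vec none)
    have h2 : ∑ f : ι × Bool, cnt 2 (0 - vec (some f)) ≤ ∑ f : ι × Bool, 2 := by
      refine Finset.sum_le_sum fun f _ => cnt_two ?_
      intro h
      rw [zero_sub, neg_eq_zero] at h
      have h3 : vec (some f) = vec (none : Option (ι × Bool)) := h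
      exact absurd (vec_inj h3) (by simp)
    rw [Finset.sum_const, Finset.card_univ, Fintype.card_prod, Fintype.card_bool, smul_eq_mul] at h2
    omega
  · obtain ⟨f, hf⟩ := cnt_peel 2 c hc
    have := cnt_two' (c - vec f)
    change cnt 3 c ≤ _ at hf
    omega

lemma cnt_four {c : ι → ℤ} (hc : c ≠ 0) : cnt 4 c ≤ 24 * Fintype.card ι + 12 := by
  obtain ⟨f, hf⟩ := cnt_peel 3 c hc
  have := cnt_three (c - vec f)
  change cnt 4 c ≤ _ at hf
  omega

end count

section tile

variable {G : Type} [AddCommGroup G]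

/-- words in the tile with sum `d` -/
lemma card_words {A : Finset G} {s : ℕ} (hA : PerfectSpanning A s) (k : ℕ) (hk : k ≤ s) {d : G}
    (hd : d ≠ 0) : ∃ c : A → ℤ, c ≠ 0 ∧
      #{w : Fin k → Ltr A | ∑ i, val A (w i) = d} ≤ cnt k c := by
  rcases Finset.eq_empty_or_nonempty ({w : Fin k → Ltr A | ∑ i, val A (w i) = d} : Finset _) with
    h | ⟨w₀, hw₀⟩
  · obtain ⟨c, ⟨-, h2⟩, -⟩ := hA d
    refine ⟨c, ?_, by rw [h]; simp⟩
    rintro rfl
    apply hd
    rw [← h2]
    simp
  · have hval : ∀ w : Fin k → Ltr A, ∑ i, val A (w i) = evh A (∑ i, vec (w i)) := by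
      intro w
      rw [map_sum]
      rfl
    rw [Finset.mem_filter, hval] at hw₀
    refine ⟨∑ i, vec (w₀ i), ?_, ?_⟩
    · intro h
      rw [h, map_zero] at hw₀
      exact hd hw₀.2.symm
    · rw [cnt]
      refine Finset.card_le_card fun w hw => ?_
      rw [Finset.mem_filter, hval] at hw
      rw [Finset.mem_filter]
      refine ⟨Finset.mem_univ _, fun j => ?_⟩
      have h1 : ∑ i, vec (w i) = ∑ i, vec (w₀ i) :=
        evh_inj hA ((nrm_sum_vec w).trans hk) ((nrm_sum_vec w₀).trans hk)
          (hw.2.trans hw₀.2.symm)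
      rw [← h1, Finset.sum_apply]

lemma mem_tile_iff {A : Finset G} {x : G} : x ∈ tile A ↔ ∃ w, val A w = x := by
  rw [tile_eq, Finset.mem_image]
  simp only [Finset.mem_univ, true_and]

lemma neg_mem_tile {A : Finset G} {x : G} (hx : x ∈ tile A) : -x ∈ tile A := by
  rw [tile, Finset.mem_insert, Finset.mem_union, Finset.mem_image] at hx ⊢
  rcases hx with rfl | hx | ⟨a, ha, rfl⟩
  · left
    exact neg_zero
  · right; right
    exact ⟨x, hx, rfl⟩
  · right; left
    rwa [neg_neg]

end tile

/-- representations as sums of two and differences of sums of two -/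
theorem t3 : T_T3 := by
  intro G _ _ A s hs hA
  have hinj := val_inj (by omega) hA
  refine ⟨fun d hd => ?_, fun d hd => ?_⟩
  · obtain ⟨c, hc, h1⟩ := card_words hA 2 (by omega) hd
    refine le_trans ?_ (h1.trans (cnt_two hc))
    rw [r2]
    have h2 : ∀ x : G, ∃ w : Ltr A, x ∈ tile A → val A w = x := by
      intro x
      by_cases hx : x ∈ tile A
      · obtain ⟨w, hw⟩ := mem_tile_iff.1 hx
        exact ⟨w, fun _ => hw⟩
      · exact ⟨none, fun h => absurd h hx⟩
    choose W hW using h2
    refine Finset.card_le_card_of_injOn (fun q : G × G => ![W q.1, W q.2]) ?_ ?_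
    · intro q hq
      rw [Finset.mem_coe, Finset.mem_filter, Finset.mem_product] at hq
      rw [Finset.mem_coe, Finset.mem_filter]
      refine ⟨Finset.mem_univ _, ?_⟩
      rw [Fin.sum_univ_two]
      simp only [Matrix.cons_val_zero, Matrix.cons_val_one]
      rw [hW _ hq.1.1, hW _ hq.1.2, hq.2]
    · intro q hq q' hq' h
      rw [Finset.mem_coe, Finset.mem_filter, Finset.mem_product] at hq hq'
      have h3 := congrFun h 0
      have h4 := congrFun h 1
      simp only [Matrix.cons_val_zero, Matrix.cons_val_one] at h3 h4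
      refine Prod.ext ?_ ?_
      · rw [← hW _ hq.1.1, ← hW _ hq'.1.1, h3]
      · rw [← hW _ hq.1.2, ← hW _ hq'.1.2, h4]
  · obtain ⟨c, hc, h1⟩ := card_words hA 4 (by omega) hd
    have h0 := cnt_four hc
    rw [Fintype.card_coe] at h0
    refine le_trans ?_ (h1.trans h0)
    have h2 : ∀ x : G, ∃ w : Ltr A, x ∈ tile A → val A w = x := by
      intro x
      by_cases hx : x ∈ tile A
      · obtain ⟨w, hw⟩ := mem_tile_iff.1 hx
        exact ⟨w, fun _ => hw⟩
      · exact ⟨none, fun h => absurd h hx⟩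
    choose W hW using h2
    have h3 : ∑ g, r2 (tile A) g * r2 (tile A) (g + d) =
        #{q ∈ (tile A ×ˢ tile A) ×ˢ (tile A ×ˢ tile A) | q.2.1 + q.2.2 = q.1.1 + q.1.2 + d} := by
      rw [Finset.card_eq_sum_card_fiberwise (f := fun q => q.1.1 + q.1.2) (t := Finset.univ)
        (fun _ _ => Finset.mem_coe.2 (Finset.mem_univ _))]
      refine Finset.sum_congr rfl fun g _ => ?_
      rw [r2, r2, ← Finset.card_product]
      congr 1
      ext q
      simp only [Finset.mem_product, Finset.mem_filter]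
      constructor
      · rintro ⟨⟨⟨h1, h2⟩, h3⟩, ⟨h4, h5⟩, h6⟩
        exact ⟨⟨⟨⟨h1, h2⟩, h4, h5⟩, by rw [h3, h6]⟩, h3⟩
      · rintro ⟨⟨⟨⟨h1, h2⟩, h4, h5⟩, h6⟩, h3⟩
        exact ⟨⟨⟨h1, h2⟩, h3⟩, ⟨h4, h5⟩, by rw [h6, h3]⟩
    rw [h3]
    refine Finset.card_le_card_of_injOn
      (fun q : (G × G) × (G × G) => ![W (-q.1.1), W (-q.1.2), W q.2.1, W q.2.2]) ?_ ?_
    · intro q hq
      rw [Finset.mem_coe, Finset.mem_filter, Finset.mem_product, Finset.mem_product,
        Finset.mem_product] at hq
      rw [Finset.mem_coe, Finset.mem_filter]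
      refine ⟨Finset.mem_univ _, ?_⟩
      rw [Fin.sum_univ_four]
      simp only [Matrix.cons_val_zero, Matrix.cons_val_one, Matrix.cons_val]
      rw [hW _ (neg_mem_tile hq.1.1.1), hW _ (neg_mem_tile hq.1.1.2), hW _ hq.1.2.1, hW _ hq.1.2.2,
        add_assoc, hq.2]
      abel
    · intro q hq q' hq' h
      rw [Finset.mem_coe, Finset.mem_filter, Finset.mem_product, Finset.mem_product,
        Finset.mem_product] at hq hq'
      have e0 := congrFun h 0
      have e1 := congrFun h 1
      have e2 := congrFun h 2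
      have e3 := congrFun h 3
      simp only [Matrix.cons_val_zero, Matrix.cons_val_one, Matrix.cons_val] at e0 e1 e2 e3
      refine Prod.ext (Prod.ext ?_ ?_) (Prod.ext ?_ ?_)
      · rw [← neg_inj, ← hW _ (neg_mem_tile hq.1.1.1), ← hW _ (neg_mem_tile hq'.1.1.1), e0]
      · rw [← neg_inj, ← hW _ (neg_mem_tile hq.1.1.2), ← hW _ (neg_mem_tile hq'.1.1.2), e1]
      · rw [← hW _ hq.1.2.1, ← hW _ hq'.1.2.1, e2]
      · rw [← hW _ hq.1.2.2, ← hW _ hq'.1.2.2, e3]

end Pool.Agent.H87.GB
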