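import Pool.Agent.H27.GW.TI
import Pool.Agent.H23.GB.Targets

/-!
Common lemmas on words in the tile of a perfect spanning set (MP_684e05_nt, modules T2 and T3).
-/

set_option autoImplicit false

open Finset
open scoped Classical

namespace Pool.Agent.H87.GB

open Pool.Agent.H23.GW Pool.Agent.H23.GA Pool.Agent.H23.GB
open Pool.Agent.H27.GW (vec sgn vec_some vec_none vec_norm vec_inj vec_values sgn_ne sgn_not ev ev_add
  ev_vec_none ev_vec_some mem_ball abs_le_iff_mem_ball)

section nrm

variable {ι : Type} [Fintype ι]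

/-- the norm of an integer vector -/
def nrm (c : ι → ℤ) : ℕ := ∑ i, (c i).natAbs

lemma nrm_add_le (c d : ι → ℤ) : nrm (c + d) ≤ nrm c + nrm d := by
  unfold nrm
  rw [← Finset.sum_add_distrib]
  exact Finset.sum_le_sum fun i _ => Int.natAbs_add_le _ _

lemma nrm_neg (c : ι → ℤ) : nrm (-c) = nrm c := by
  unfold nrm
  exact Finset.sum_congr rfl fun i _ => by rw [Pi.neg_apply, Int.natAbs_neg]

lemma nrm_sub_comm (c d : ι → ℤ) : nrm (c - d) = nrm (d - c) := by
  rw [← nrm_neg, neg_sub]

lemma nrm_nsmul (k : ℕ) (c : ι → ℤ) : nrm (k • c) = k * nrm c := by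
  unfold nrm
  rw [Finset.mul_sum]
  exact Finset.sum_congr rfl fun i _ => by
    rw [Pi.smul_apply, nsmul_eq_mul, Int.natAbs_mul, Int.natAbs_natCast]

lemma nrm_zero : nrm (0 : ι → ℤ) = 0 := by
  simp [nrm]

lemma nrm_eq_zero {c : ι → ℤ} (h : nrm c = 0) : c = 0 := by
  funext i
  exact Int.natAbs_eq_zero.1 (Finset.sum_eq_zero_iff.1 h i (Finset.mem_univ i))

lemma nrm_sum_le {κ : Type} (s : Finset κ) (f : κ → ι → ℤ) :
    nrm (∑ k ∈ s, f k) ≤ ∑ k ∈ s, nrm (f k) := by
  induction s using Finset.induction_on with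
  | empty => simp [nrm_zero]
  | insert a s ha ih =>
    rw [Finset.sum_insert ha, Finset.sum_insert ha]
    exact (nrm_add_le _ _).trans (by omega)

lemma nrm_vec (w : Option (ι × Bool)) : nrm (vec w) ≤ 1 := vec_norm w

lemma nrm_sum_vec {n : ℕ} (w : Fin n → Option (ι × Bool)) : nrm (∑ i, vec (w i)) ≤ n := by
  refine (nrm_sum_le _ _).trans ((Finset.sum_le_sum fun i _ => nrm_vec (w i)).trans ?_)
  simp

lemma nrm_sub_vec (f : ι → ℤ) (i : ι) (h : f i ≠ 0) :
    nrm (f - vec (some (i, decide (0 < f i)))) + 1 ≤ nrm f := by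
  have h1 : ∀ j, ((f - vec (some (i, decide (0 < f i)))) j).natAbs + (if j = i then 1 else 0) ≤
      (f j).natAbs := by
    intro j
    rw [Pi.sub_apply, vec_some]
    by_cases hj : j = i
    · subst hj
      rw [if_pos rfl, if_pos rfl]
      by_cases h2 : 0 < f j
      · rw [decide_eq_true h2]
        simp only [sgn, if_true]
        omega
      · rw [decide_eq_false h2]
        simp only [sgn, Bool.false_eq_true, if_false]
        omega
    · rw [if_neg hj, if_neg hj]
      simp
  have h2 := Finset.sum_le_sum fun j (_ : j ∈ (Finset.univ : Finset ι)) => h1 j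
  rw [Finset.sum_add_distrib] at h2
  simpa [nrm] using h2

lemma split (c : ι → ℤ) (n : ℕ) : ∃ c₁ : ι → ℤ, nrm c₁ ≤ n ∧ nrm (c - c₁) ≤ nrm c - n := by
  induction n with
  | zero => exact ⟨0, by simp [nrm_zero], by simp⟩
  | succ n ih =>
    obtain ⟨c₁, h1, h2⟩ := ih
    by_cases h : c - c₁ = 0
    · exact ⟨c₁, h1.trans (Nat.le_succ n), by rw [h, nrm_zero]; exact Nat.zero_le _⟩
    · obtain ⟨i, hi⟩ : ∃ i, (c - c₁) i ≠ 0 := by
        by_contra h3
        push Not at h3
        exact h (funext h3)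
      refine ⟨c₁ + vec (some (i, decide (0 < (c - c₁) i))), ?_, ?_⟩
      · have := nrm_add_le c₁ (vec (some (i, decide (0 < (c - c₁) i))))
        have := nrm_vec (some (i, decide (0 < (c - c₁) i)))
        omega
      · have := nrm_sub_vec _ i hi
        rw [← sub_sub]
        omega

lemma mem_ball' {n : ℕ} {c : ι → ℤ} : c ∈ ball ι n ↔ nrm c ≤ n := mem_ball

lemma ball_one : ball ι 1 = Finset.univ.image (vec : Option (ι × Bool) → ι → ℤ) := by
  ext c
  rw [mem_ball', Finset.mem_image]
  constructor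
  · intro h
    by_cases h0 : c = 0
    · exact ⟨none, Finset.mem_univ _, h0.symm ▸ rfl⟩
    · obtain ⟨i, hi⟩ : ∃ i, c i ≠ 0 := by
        by_contra h3
        push Not at h3
        exact h0 (funext h3)
      refine ⟨some (i, decide (0 < c i)), Finset.mem_univ _, (sub_eq_zero.1 (nrm_eq_zero ?_)).symm⟩
      have := nrm_sub_vec _ i hi
      omega
  · rintro ⟨w, -, rfl⟩
    exact nrm_vec w

end nrm

section tile

variable {G : Type} [AddCommGroup G]

/-- evaluation, as a homomorphism -/
noncomputable def evh (A : Finset G) : (A → ℤ) →+ G where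
  toFun c := ∑ a, c a • (a : G)
  map_zero' := by simp
  map_add' c d := by simp [add_smul, Finset.sum_add_distrib]

lemma evh_vec_none (A : Finset G) : evh A (vec none) = 0 := by
  have : (vec none : A → ℤ) = 0 := rfl
  rw [this, map_zero]

lemma evh_vec_some (A : Finset G) (a : A) (b : Bool) :
    evh A (vec (some (a, b))) = sgn b • (a : G) := by
  change ∑ c, vec (some (a, b)) c • (c : G) = _
  rw [Finset.sum_eq_single a]
  · rw [vec_some, if_pos rfl]
  · intro c _ hc
    rw [vec_some, if_neg hc, zero_smul]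
  · intro h
    exact absurd (Finset.mem_univ a) h

lemma evh_inj {A : Finset G} {s : ℕ} (hA : PerfectSpanning A s) {c d : A → ℤ} (hc : nrm c ≤ s)
    (hd : nrm d ≤ s) (h : evh A c = evh A d) : c = d := by
  rw [← mem_ball', ← abs_le_iff_mem_ball] at hc hd
  exact (hA (evh A d)).unique ⟨hc, h⟩ ⟨hd, rfl⟩

lemma ker {A : Finset G} {s : ℕ} (hA : PerfectSpanning A s) {c : A → ℤ} (hc : nrm c ≤ 2 * s)
    (h : evh A c = 0) : c = 0 := by
  obtain ⟨c₁, h1, h2⟩ := split c s
  have h3 : c₁ = c₁ - c := by
    apply evh_inj hA h1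
    · rw [nrm_sub_comm]
      omega
    · rw [map_sub, h, sub_zero]
  have h4 : c₁ - c = c₁ - 0 := by rw [← h3, sub_zero]
  exact sub_right_inj.1 h4

/-- the letters -/
abbrev Ltr (A : Finset G) : Type := Option (A × Bool)

/-- the value of a letter -/
noncomputable def val (A : Finset G) (w : Ltr A) : G := evh A (vec w)

lemma tile_eq (A : Finset G) : tile A = Finset.univ.image (val A) := by
  ext x
  rw [tile, Finset.mem_insert, Finset.mem_union, Finset.mem_image, Finset.mem_image]
  constructor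
  · rintro (rfl | h | ⟨a, ha, rfl⟩)
    · exact ⟨none, Finset.mem_univ _, evh_vec_none A⟩
    · exact ⟨some (⟨x, h⟩, true), Finset.mem_univ _, by rw [val, evh_vec_some]; simp [sgn]⟩
    · exact ⟨some (⟨a, ha⟩, false), Finset.mem_univ _, by rw [val, evh_vec_some]; simp [sgn]⟩
  · rintro ⟨w, -, rfl⟩
    rcases w with _ | ⟨⟨a, ha⟩, b⟩
    · left
      exact evh_vec_none A
    · right
      rw [val, evh_vec_some]
      cases b
      · right
        exact ⟨a, ha, by simp [sgn]⟩
      · left
        simpa [sgn] using ha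

lemma val_inj {A : Finset G} {s : ℕ} (hs : 1 ≤ s) (hA : PerfectSpanning A s) :
    Function.Injective (val A) := fun w w' h =>
  vec_inj (evh_inj hA ((nrm_vec w).trans hs) ((nrm_vec w').trans hs) h)

omit [AddCommGroup G] in
lemma card_Ltr (A : Finset G) : Fintype.card (Ltr A) = 2 * #A + 1 := by
  rw [Fintype.card_option, Fintype.card_prod, Fintype.card_coe, Fintype.card_bool, mul_comm]

end tile

end Pool.Agent.H87.GB
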